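import Pool.Agent.J4.H67.AS.Final
set_option autoImplicit false

/-!
# Density of the regulator on `H³_M(A, ℚ(2))` for ALL abelian surfaces `A`

Let `A = ℂ² / Λ` be an abelian surface over `ℂ`.  The motivic cohomology `H³_M(A, ℚ(2)) = CH²(A, 1) ⊗ ℚ` is given by the
finite sums of pairs `(W, f)`, `W ⊂ A` a curve, `f` a rational function on `W`, with `∑ div f = 0` as a zero cycle on `A`;
a smooth projective curve `C` with a morphism `u : C → A` and a rational function `f` defines such a pair by
push-forward.  The real regulator of the class is the functional `η ↦ ∫_C log |f| u^*η` on the real `(1, 1)`-forms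
`η` with constant coefficients, up to the normalization: it is given by the Hermitian matrix of the integrals
`∫_C log |f| u^*(dz_i) ∧ conj (u^*(dz_j))` (up to the factor `- 2 √(-1)`).

Here `Hg^(3, 2)(A) = 0` and `J^(3, 2)(A) = H²(A, ℂ) / (H²(A, ℚ(2)) + F²)` has the maximal Hausdorff quotient
`H²(A, ℂ) / (H²(A, ℝ(2)) + F²)`, the dual of the space of real `(1, 1)`-forms, a real vector space of dimension `4`.  So the
image of the regulator is dense in absolute Hodge cohomology if and only if the rational span of the matrices is
dense in the Hermitian matrices.  The theorem proves this for ALL complex abelian surfaces, in particular for all which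
can be defined over a number field; it was known for general abelian surfaces (Hodge-D-conjecture).

Only the following pairs are used (so the statement is a bit stronger): `C` is a curve of genus two `y² = P(x)`, and
`f = c ∏ (x - r)^(n r)` has its divisor at the Weierstrass points.

Idea of the proof.  If a real `(1, 1)`-form `H` on `A` is orthogonal to all regulators, its pull-back to every isogenous
abelian surface is so, too.  The isogeny class of `(A, H)` is dense in the orbit of the real symplectic group, so it comes
arbitrarily close to the Jacobian of `y² = 1 - x⁶` with a form for which the regulator of one of Collino's elements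
`(x - a) / (x - b)` does not vanish (the integrand has a constant sign).  The periods of
`y² = 1 + p₀ x² + p₁ x³ + p₂ x⁴ - x⁶`, Riemann's bilinear relation and the local Torelli theorem at `p = 0` are proved
explicitly.

Definitions used (`Pool/Agent/J4/H67/AS/Defs.lean`, `Pool/Agent/J4/H67/AS/FDefs.lean`): `IsAbelian Λ`, `IsPath`,
`IsIntegral`, `CurveFn Λ`, `CurveFn.div`, `CurveFn.logAbs`, `CurveFn.reg`.
-/

namespace Pool.Agent.Results.MP_b2b689_ag.AbelianSurfaces

open Pool.Agent.J4.H67.AS

/-- **Density of the regulator for all abelian surfaces.**  Let `ℂ² / Λ` be an abelian surface.  The closure of the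
`ℚ`-span of the regulator matrices of the cycles (finite lists of genus two curves with a map to `ℂ² / Λ` and a
function, for which the push-forwards of the divisors of the functions have sum zero) is the set of ALL Hermitian
`2 × 2` matrices. -/
theorem result (Λ : AddSubgroup (Fin 2 → ℂ)) (hΛ : IsAbelian Λ) :
    closure (Submodule.span ℚ {R : Matrix (Fin 2) (Fin 2) ℂ | ∃ l : List (CurveFn Λ),
      (l.map CurveFn.div).sum = 0 ∧ R = (l.map CurveFn.reg).sum} : Set (Matrix (Fin 2) (Fin 2) ℂ)) =
      {R : Matrix (Fin 2) (Fin 2) ℂ | R.IsHermitian} :=
  density Λ hΛ

end Pool.Agent.Results.MP_b2b689_ag.AbelianSurfaces
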