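import Pool.Agent.J4.H64.EK.Fin

/-!
# The regulator `H^2_M(X, ℚ(2)) → H^2_H(X, ℚ(2))` has dense image for all smooth curves `X` of genus one

Let `E = ℂ / Λ` be any complex elliptic curve, `T ⊆ E` a finite set (possibly empty) and `X = E ∖ T`.
Then `H^2_M(X, ℚ(2))` maps onto the group of the sums of symbols `ξ = ∑ n {f, g}` in
`K_2(ℂ(E)) ⊗ ℚ` with trivial tame symbols at all points of `X`.  The Hodge part of
`H^2_H(X, ℚ(2))` is zero, `J = H^1(X, ℂ) / H^1(X, ℚ(2))`, and the quotient of `J` by the closure of `0` is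
`Hom(H_1(X, ℤ), ℝ)` (up to a factor `i`), where the regulator of `{f, g}` is the integration of
`log |f| d arg g - log |g| d arg f`.  A basis of `H_1(X, ℚ)` is given by small circles about the points
of `T` except one, `s₀`, where the regulator is `2 π log |tame symbol|`, and by two loops
`p + [0, 1] ω₁`, `p + [0, 1] ω₂`.  The theorem says that the values of the regulator in this basis are
dense in `ℝ ^ (|T| + 1)` (in `ℝ ^ 2` if `T` is empty).

Proof.  (1) For `s ∈ T`, `s ≠ s₀`, a symbol `{℘(z - s₀) - ℘(s - s₀), κ (℘(z - Q) - ℘(c))}` with torsion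
points `Q - s₀`, `c` has a tame symbol `1` at `2 s₀ - s` for a suitable constant `κ` and one of
absolute value different from `1` at `s` for suitable `Q`, as torsion points are dense; the other tame
symbols are at torsion translates of `s₀` and are moved to `s₀` by symbols `{h, κ'}` where `h` has a
divisor `N (a) - N (s₀)`.  (2) For elements of `K_2(E)`: the symbols `{u(z - Q), u(z)}`,
`u = ℘ - ℘(c)`, `Q` torsion, corrected in the same way and antisymmetrized under `z ↦ -z`.  If the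
vectors of the regulators of all elements of `K_2(E)` with torsion divisors were on a line, then by
translation, density of the torsion points and continuity the mean value over `E` of the density
of the regulator in some direction `v` would be zero for all of them.  Then the correlation
`C(Q) = ∫ log |u(z)| ∂_v log |u(z + Q)|` would be an even function of `Q`, first for torsion `Q`, then
for all `Q`.  Along the line `ℝ v` it is the derivative of the autocorrelation of `log |u|`, hence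
odd, hence zero, and `log |u|` would be invariant under the translations by `ℝ v`, in contradiction to its
singularity at `c`.
-/

set_option autoImplicit false

open Filter

namespace Pool.Agent.Results.MP_b2b689_ag.GenusOneCurves

/-- `f` is an elliptic function for the lattice of `L`, that is a meromorphic function on `ℂ / Λ`,
not identically zero. -/
def Elliptic (L : PeriodPair) (f : ℂ → ℂ) : Prop :=
  Meromorphic f ∧ (∀ z, ∀ l ∈ L.lattice, f (z + l) = f z) ∧ ∀ z, meromorphicOrderAt f z ≠ ⊤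

/-- The order of `f` at `z` as an integer. -/
noncomputable def ord (f : ℂ → ℂ) (z : ℂ) : ℤ := (meromorphicOrderAt f z).untop₀

/-- The tame symbol of `{f, g}` at `z`, the value at `z` of `(-1) ^ (ab) f ^ b / g ^ a` with the orders
`a` of `f` and `b` of `g`. -/
noncomputable def tame (f g : ℂ → ℂ) (z : ℂ) : ℂ :=
  (-1) ^ (ord f z * ord g z) * meromorphicTrailingCoeffAt f z ^ ord g z /
    meromorphicTrailingCoeffAt g z ^ ord f z

/-- Finite formal sums `∑ n {f, g}`. -/
abbrev SymbolSum : Type := List (ℤ × (ℂ → ℂ) × (ℂ → ℂ))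

/-- The tame symbol at `z` of a sum of symbols. -/
noncomputable def residue (ξ : SymbolSum) (z : ℂ) : ℂ :=
  (ξ.map fun t => tame t.2.1 t.2.2 z ^ t.1).prod

/-- The integral of `log |f| d arg g - log |g| d arg f` over the segment from `p` to `p + w`. -/
noncomputable def reg1 (f g : ℂ → ℂ) (p w : ℂ) : ℝ :=
  ∫ s in (0 : ℝ)..1, (Real.log ‖f (p + s * w)‖ * (w * logDeriv g (p + s * w)).im -
    Real.log ‖g (p + s * w)‖ * (w * logDeriv f (p + s * w)).im)

/-- The regulator of a sum of symbols along the segment from `p` to `p + w`, which is a loop on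
`ℂ / Λ` if `w ∈ Λ`. -/
noncomputable def reg (ξ : SymbolSum) (p w : ℂ) : ℝ :=
  (ξ.map fun t => (t.1 : ℝ) * reg1 t.2.1 t.2.2 p w).sum

/-- `f` has no zeros and poles on the line `p + ℝ w` (and is analytic there). -/
def RegularOn (f : ℂ → ℂ) (p w : ℂ) : Prop :=
  ∀ s : ℝ, AnalyticAt ℂ f (p + s * w) ∧ f (p + s * w) ≠ 0

/-- `p` is a good base point: modulo the lattice no point of the lines `p + ℝ ω₁`, `p + ℝ ω₂` is a
torsion translate of `s₀`, a point `t` of `T` or a point `2 s₀ - t`. -/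
def BasePoint (L : PeriodPair) (T : Finset ℂ) (s₀ p : ℂ) : Prop :=
  ∀ w : ℂ, w = L.ω₁ ∨ w = L.ω₂ → ∀ s : ℝ,
    (∀ N : ℕ, 0 < N → N * (p + s * w - s₀) ∉ L.lattice) ∧
    ∀ t ∈ T, p + s * w - t ∉ L.lattice ∧ p + s * w + t - 2 * s₀ ∉ L.lattice

open Pool.Agent.J4.H64.EK H4EP

theorem gen_of {L : PeriodPair} {T : Finset ℂ} {s₀ p : ℂ} (h : BasePoint L T s₀ p) :
    Gen L (AA L s₀ T) p := by
  have key : ∀ w : ℂ, w = L.ω₁ ∨ w = L.ω₂ → ∀ s : ℝ, p + s * w ∉ AA L s₀ T := by
    intro w hw s hA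
    obtain ⟨h1, h2⟩ := h w hw s
    rcases hA with ⟨N, hN, h3⟩ | ⟨t, ht, h3 | h3⟩
    · exact h1 N hN (cl_eq_zero.1 h3)
    · have h4 := cl_eq.1 h3
      rw [sub_sub_sub_cancel_right] at h4
      exact (h2 t ht).1 h4
    · have h4 := cl_eq_neg.1 h3
      have h5 : p + s * w - s₀ + (t - s₀) = p + s * w + t - 2 * s₀ := by ring
      rw [h5] at h4
      exact (h2 t ht).2 h4
  exact fun s => ⟨key _ (Or.inl rfl) s, key _ (Or.inr rfl) s⟩

theorem exists_basePoint (L : PeriodPair) (T : Finset ℂ) (s₀ : ℂ) : ∃ p, BasePoint L T s₀ p := by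
  set B : Set ℂ := (fun z => z - s₀) ⁻¹' tors L ∪
    ⋃ t ∈ T, ((fun z => z - t) ⁻¹' tors L ∪ (fun z => z + t - 2 * s₀) ⁻¹' tors L) with hB
  have hBc : B.Countable := by
    have h1 : ∀ f : ℂ → ℂ, Function.Injective f → (f ⁻¹' tors L).Countable := fun f hf =>
      (countable_tors L).preimage_of_injOn hf.injOn
    refine (h1 _ sub_left_injective).union (T.countable_toSet.biUnion fun t _ =>
      (h1 _ sub_left_injective).union (h1 _ ?_))
    intro a b hab
    have h2 : a + t - 2 * s₀ = b + t - 2 * s₀ := hab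
    linear_combination h2
  obtain ⟨x, h1, h2⟩ := ((ae_line L hBc (1, 0)).and (ae_line L hBc (0, 1))).exists
  have h3 : ∀ w : ℂ, w = L.ω₁ ∨ w = L.ω₂ → ∀ s : ℝ, ee L x + s * w ∉ B := by
    rintro w (rfl | rfl) s
    · have := h1 s
      rwa [ee_add, ee_smul, ee_one] at this
    · have := h2 s
      rwa [ee_add, ee_smul, ee_two] at this
  have htor : ∀ (N : ℕ) (z : ℂ), 0 < N → N * z ∈ L.lattice → z ∈ tors L := fun N z hN hz =>
    ⟨N, hN, cl_eq_zero.2 hz⟩
  have htor1 : ∀ z : ℂ, z ∈ L.lattice → z ∈ tors L := fun z hz => htor 1 z one_pos (by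
    rwa [Nat.cast_one, one_mul])
  refine ⟨ee L x, fun w hw s => ⟨fun N hN h => ?_, fun t ht => ⟨fun h => ?_, fun h => ?_⟩⟩⟩
  · exact h3 w hw s (Or.inl (htor N _ hN h))
  · refine h3 w hw s (Or.inr ?_)
    rw [Set.mem_iUnion₂]
    exact ⟨t, ht, Or.inl (htor1 _ h)⟩
  · refine h3 w hw s (Or.inr ?_)
    rw [Set.mem_iUnion₂]
    exact ⟨t, ht, Or.inr (htor1 _ h)⟩

theorem elliptic_of {L : PeriodPair} {f : ℂ → ℂ} (h : IsElliptic L f) : Elliptic L f :=
  ⟨h.mero, h.per, h.ne_top⟩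

theorem unit_of {L : PeriodPair} {T : Finset ℂ} {s₀ p : ℂ} (h : BasePoint L T s₀ p)
    {ξ : Sym2K} (hs : Supp (AA L s₀ T) ξ) (w : ℂ) (hw : w = L.ω₁ ∨ w = L.ω₂) :
    ∀ t ∈ ξ, RegularOn t.2.1 p w ∧ RegularOn t.2.2 p w := by
  intro t ht
  have h1 : ∀ s : ℝ, p + s * w ∉ AA L s₀ T := by
    intro s
    rcases hw with rfl | rfl
    · exact (gen_of h s).1
    · exact (gen_of h s).2
  exact ⟨fun s => (hs t ht _ (h1 s)).1, fun s => (hs t ht _ (h1 s)).2⟩

/-- Let `Λ` be a lattice in `ℂ`, `T` a finite set of complex numbers that are pairwise incongruent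
modulo `Λ`, and `s₀ ∈ T` (any `s₀` if `T` is empty).  Good base points `p` exist.  For every good
base point `p`, all real numbers `r t` (`t ∈ T`, `t ≠ s₀`), `ρ₁`, `ρ₂` and every `ε > 0` there are a
sum `ξ` of symbols of elliptic functions and an integer `D ≥ 1` such that the tame symbols of `ξ`
at all points that are not in `T + Λ` are `1`, the functions of `ξ` have no zeros and poles on
the lines `p + ℝ ω₁`, `p + ℝ ω₂`, `|log |residue ξ t| / D - r t| < ε` for all `t ∈ T`, `t ≠ s₀`, and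
`|reg ξ p ω₁ / D - ρ₁| < ε`, `|reg ξ p ω₂ / D - ρ₂| < ε`. -/
theorem result (L : PeriodPair) (T : Finset ℂ)
    (hT : ∀ s ∈ T, ∀ t ∈ T, s - t ∈ L.lattice → s = t) (s₀ : ℂ) (hs₀ : s₀ ∈ T ∨ T = ∅) :
    (∃ p, BasePoint L T s₀ p) ∧
    ∀ p, BasePoint L T s₀ p → ∀ (r : ℂ → ℝ) (ρ₁ ρ₂ ε : ℝ), 0 < ε →
      ∃ (D : ℕ) (ξ : SymbolSum), 0 < D ∧
        (∀ t ∈ ξ, Elliptic L t.2.1 ∧ Elliptic L t.2.2) ∧
        (∀ z, (∀ t ∈ T, z - t ∉ L.lattice) → residue ξ z = 1) ∧
        (∀ w : ℂ, w = L.ω₁ ∨ w = L.ω₂ → ∀ t ∈ ξ, RegularOn t.2.1 p w ∧ RegularOn t.2.2 p w) ∧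
        (∀ t ∈ T, t ≠ s₀ → |Real.log ‖residue ξ t‖ / D - r t| < ε) ∧
        |reg ξ p L.ω₁ / D - ρ₁| < ε ∧ |reg ξ p L.ω₂ / D - ρ₂| < ε := by
  classical
  refine ⟨exists_basePoint L T s₀, fun p hp r ρ₁ ρ₂ ε hε => ?_⟩
  rcases hs₀ with hs | rfl
  · obtain ⟨D, ξ, h1, h2, h3, h4, h5, h6, h7⟩ := density L s₀ (T.erase s₀) (by
      intro s hs1 h
      rw [Finset.mem_erase] at hs1
      exact hs1.1 (hT s hs1.2 s₀ hs (cl_eq.1 h))) (by
      intro s hs1 t ht1 h
      exact hT s (Finset.mem_of_mem_erase hs1) t (Finset.mem_of_mem_erase ht1) (cl_eq.1 h))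
      p r ρ₁ ρ₂ hε
    refine ⟨D, ξ, h1, fun t ht => ⟨elliptic_of (h2 t ht).1, elliptic_of (h2 t ht).2⟩, ?_,
      unit_of hp (h3.mono (AA_mono (Finset.erase_subset _ _))), ?_, h6, h7⟩
    · intro z hz
      refine h4 z (fun h => hz s₀ hs (cl_eq.1 h)) fun s hs1 h => ?_
      exact hz s (Finset.mem_of_mem_erase hs1) (cl_eq.1 h)
    · intro t ht hts
      exact h5 t (Finset.mem_erase.2 ⟨hts, ht⟩)
  · obtain ⟨D, ξ, h1, h2, h3, h4, h5, h6⟩ := density0 L s₀ p ρ₁ ρ₂ hε
    refine ⟨D, ξ, h1, fun t ht => ⟨elliptic_of (h2 t ht).1, elliptic_of (h2 t ht).2⟩,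
      fun z _ => h4 z, unit_of hp h3, fun t ht => absurd ht (Finset.notMem_empty t), h5, h6⟩

end Pool.Agent.Results.MP_b2b689_ag.GenusOneCurves
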