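import Pool.Agent.Y94.R.Asm
import Pool.Agent.J4.H9.PR.Fam
set_option autoImplicit false

/-!
Density of the regulator `H²(X, ℚ(2)) → H²_H(X, ℚ(2)) = H¹(X, ℂ/ℚ(2))` for the hyperelliptic curves
`X : y² = D(x)` of genus `g` for which the difference of the two points at infinity is torsion, that
is, for which the Pell equation `P² - D Q² = 1` has a solution with nonconstant `P`.

The real span of the regulators of `K_2(X) ⊗ ℚ` has real codimension at most `κ`, where `κ` is the
largest number of critical points with critical values outside of `[-1, 1]` of a *real* polynomial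
`G` with `P = G ∘ w` such that all `G - t`, `t ∈ T ⊆ (-1, 1)`, have only real roots.  In particular
the span is everything and the image is dense, unless `P` is a composition `G ∘ w` with such a real
`G` of degree at least two; the critical values of `P` do not matter.
-/

namespace Pool.Agent.Results.MP_b2b689_ag.PellRealFactors

open Polynomial

open Pool.Agent.TH826.MK (KQ symb Torus)

open Pool.Agent.TH826.HD (UnramifiedOver)

open Pool.Agent.Y94.R

open scoped Classical in
/-- (1) Let `D` be a squarefree complex polynomial of degree `2 g + 2`, let `P² - D Q² = 1`, where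
`P` is not constant, and let `P' = r Q`. Then the coordinate ring of the affine curve `y² = D(x)` is
a domain, and the curve is smooth. Let `γ_l = (x_l, y_l)`, `1 ≤ l ≤ m`, be loops in the complex
points of the curve with `y_l ≠ 0`, whose period vectors `(∫ x^j dx / y)_{j < g}` are linearly
independent over `ℝ`, and that avoid the zeros of `r(x)` and the zeros of `P(x) - τ` for all `τ` in
the nonempty set `T ⊆ (-1, 1)`. Let `κ` be a number such that, for all decompositions `P = G(w(x))`
with `w ∈ ℂ[x]` and a real polynomial `G` for which all polynomials `G - τ`, `τ ∈ T`, split over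
`ℝ`, at most `κ` roots `v` of `G'` (with multiplicities) satisfy `|G(v)| > 1`. Let `n = m - κ`. Then
there are `n + 1` complex numbers `b_i` such that all `2 P(b_i)` are sums `ζ + 1/ζ` with roots of
unity `ζ`, such that the symbols `{P(x) + Q(x) y, (x - b_i) / (x - b_j)}` on the open part
`∏ (x - b_i) ≠ 0` are unramified at all discrete valuations of the function field that are trivial
on `ℂ`, and such that the `n` vectors of the regulators of the symbols
`{P(x) + Q(x) y, (x - b_i) / (x - b_0)}`, `1 ≤ i ≤ n`, on the loops are linearly independent over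
`ℝ`.

(2) If `P = G(w(x))` with a real `G`, then the number of the roots `v` of `G'` with `|G(v)| > 1`,
multiplied by the degree of `w`, is at most `g`.

(3) For `P = x ^ n + c` (with `D = P² - 1`, `Q = 1`), `n ≥ 1` and `c` any complex number, the number
`κ = 0` is admissible in (1) if `n` is odd, and `κ = 1` is always admissible. -/
theorem result.{u} :
    (∀ (g : ℕ) (D P Q r : ℂ[X]), Squarefree D → D.natDegree = 2 * g + 2 →
      ∀ hPQ : P ^ 2 - D * Q ^ 2 = 1, 0 < P.natDegree → derivative P = r * Q →
      IsDomain (HRing D) ∧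
      (∀ x y : ℂ, y ^ 2 = D.eval x → 2 * y ≠ 0 ∨ (derivative D).eval x ≠ 0) ∧
      ∀ (m n κ : ℕ), n + κ = m →
        ∀ γ : Fin m → Lp D,
          (LinearIndependent ℝ fun (l : Fin m) (j : Fin g) =>
            ∫ t in (0 : ℝ)..1, (γ l).x t ^ (j : ℕ) * deriv (γ l).x t / (γ l).y t) →
          (∀ l t, r.eval ((γ l).x t) ≠ 0) →
          ∀ T : Set ℝ, T.Nonempty →
          (∀ τ ∈ T, |τ| < 1 ∧ ∀ l t, P.eval ((γ l).x t) ≠ τ) →
          (∀ (G : ℝ[X]) (w : ℂ[X]), P = (G.map (algebraMap ℝ ℂ)).comp w →
            (∀ τ ∈ T, (G - C τ).Splits) →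
            Multiset.card ((derivative G).roots.filter fun v => 1 < |G.eval v|) ≤ κ) →
          ∃ b : Fin (n + 1) → ℂ,
            (∀ i, ∃ (ζ : ℂ) (N : ℕ), N ≠ 0 ∧ ζ ^ N = 1 ∧ 2 * P.eval (b i) = ζ + ζ⁻¹) ∧
            (∀ (L : Type u) [Field L] [Algebra (HRing D) L] [IsFractionRing (HRing D) L],
              ∃ f : HOpen D b →+* L,
                (∀ a : HRing D, f (toH D b a) = algebraMap (HRing D) L a) ∧
                ∀ i j, KQ.map 2 f (symb (hent b hPQ i j)) ∈
                  UnramifiedOver (f.comp (hcst D b)) 2) ∧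
            ∃ Γ : Fin m → Torus (HOpen D b) 1,
              (∀ l θ, (∀ c : ℂ, (Γ l).e θ (hcst D b c) = c) ∧
                (Γ l).e θ (toH D b (hpol D X)) = (γ l).x (θ 0) ∧
                (Γ l).e θ (toH D b (hy D)) = (γ l).y (θ 0)) ∧
              LinearIndependent ℝ fun (i : Fin n) (l : Fin m) =>
                (Γ l).reg (symb (hent b hPQ i.succ 0))) ∧
    (∀ (g : ℕ) (D P Q r : ℂ[X]), D.natDegree = 2 * g + 2 → P ^ 2 - D * Q ^ 2 = 1 →
      0 < P.natDegree → derivative P = r * Q → ∀ (G : ℝ[X]) (w : ℂ[X]),
      P = (G.map (algebraMap ℝ ℂ)).comp w →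
      Multiset.card ((derivative G).roots.filter fun v => 1 < |G.eval v|) * w.natDegree ≤ g) ∧
    ∀ (n : ℕ) (c : ℂ) (G : ℝ[X]) (w : ℂ[X]) (τ : ℝ), 0 < n → |τ| < 1 →
      (X ^ n + C c : ℂ[X]) = (G.map (algebraMap ℝ ℂ)).comp w → (G - C τ).Splits →
      Multiset.card ((derivative G).roots.filter fun v => 1 < |G.eval v|) ≤
        if Odd n then 0 else 1 := by
  have hcrt : ∀ G : ℝ[X], ((derivative G).roots.filter fun v => 1 < |G.eval v|) =
      Pool.Agent.J4.H9.PR.crt G := by
    intro G
    unfold Pool.Agent.J4.H9.PR.crt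
    exact Multiset.filter_congr fun _ _ => Iff.rfl
  refine ⟨?_, ?_, ?_⟩
  · intro g D P Q r hD hdeg hPQ hP hr
    have h : Pell D P Q r := ⟨hPQ, hr, hP⟩
    have hrg := h.natDegree_r hdeg
    refine ⟨isDomain_HRing hD (by omega), ?_, ?_⟩
    · intro x y hxy
      by_contra hcon
      push Not at hcon
      obtain ⟨h1, h2⟩ := hcon
      have h3 : y = 0 := by simpa using h1
      rw [h3, zero_pow two_ne_zero] at hxy
      obtain ⟨D1, hD1⟩ := dvd_iff_isRoot.2 (show D.IsRoot x from hxy.symm)
      have h4 : (X - C x) * (X - C x) ∣ D := by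
        rw [hD1]
        refine mul_dvd_mul_left _ ?_
        rw [dvd_iff_isRoot]
        rw [hD1, derivative_mul] at h2
        simpa using h2
      exact Polynomial.not_isUnit_X_sub_C x (hD _ h4)
    · intro m n κ hn γ hind hoffr T hTne hT hκ
      have hid : ∀ p : ℂ[X], p.map (RingHom.id ℂ) = p := fun p => Polynomial.map_id
      have hsub : T ⊆ TT γ P := fun τ hτ =>
        ⟨(hT τ hτ).1, fun b hb l t ht => (hT τ hτ).2 l t (by rw [sub_eq_zero.1 ht, hb])⟩
      obtain ⟨b, hb1, hb2, hb3⟩ := Pool.Agent.J4.H9.PR.core' γ hD h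
        (fun l β hβ t ht => hoffr l t (by rw [sub_eq_zero.1 ht, hβ]))
        (hTne.mono hsub)
        (fun c hc => by
          rw [hrg]
          exact periods γ hind c hc) (n := n) (κ := κ)
        (fun w G hc => by
          obtain ⟨G₀, h1, h2, h3⟩ := Pool.Agent.J4.H9.PR.exists_real_poly γ h hc
          have h4 := hκ G₀ w h1 fun τ hτ => h2 τ (hsub hτ)
          rw [← h3]
          convert h4) hn
      refine ⟨b, hb2, ?_, ?_⟩
      · intro L _ _ _
        have hinj : Function.Injective (algebraMap (HRing D) L) := IsFractionRing.injective _ _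
        have hne : algebraMap (HRing D) L (hDel D b) ≠ 0 := by
          rw [Ne, map_eq_zero_iff _ hinj]
          exact hDel_ne_zero b
        exact ⟨liftH (algebraMap (HRing D) L) hne, fun a => liftH_toH _ _ _,
          fun i j => hsymb_unramifiedOver hPQ b _ i j hb2⟩
      · have hp : Pell (D.map (RingHom.id ℂ)) (P.map (RingHom.id ℂ)) (Q.map (RingHom.id ℂ))
            (r.map (RingHom.id ℂ)) := by
          rw [hid, hid, hid, hid]
          exact h
        exact exists_tori (RingHom.id ℂ) hPQ hp (fun l =>
          ⟨(γ l).x, (γ l).y, (γ l).contDiff_x, (γ l).contDiff_y, (γ l).periodic_x,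
            (γ l).periodic_y, by rw [hid]; exact (γ l).eq, (γ l).ne⟩) b
          (fun k l => hb1 k l) (by
            unfold Lp.rho Lp.z at hb3 ⊢
            simp only [hid]
            exact hb3)
  · intro g D P Q r hdeg hPQ hP hr G w hGw
    have h : Pell D P Q r := ⟨hPQ, hr, hP⟩
    rw [hcrt, ← h.natDegree_r hdeg]
    exact Pool.Agent.J4.H9.PR.card_crt_mul_le h hGw
  · intro n c G w τ hn hτ hGw hsp
    rw [hcrt]
    obtain ⟨h1, h2⟩ := Pool.Agent.J4.H9.PR.crt_family hn hGw hτ hsp
    split_ifs with hodd
    · rw [h2 hodd, Multiset.card_zero]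
    · exact h1

end Pool.Agent.Results.MP_b2b689_ag.PellRealFactors
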