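import Pool.Agent.J4.H67.REG.Main
set_option autoImplicit false

/-!
# Density of the regulator on `H^(2 n - 1)_M(X, ℚ(n))` for ALL products of `n` elliptic curves

Let `X = E_1 × ⋯ × E_n` be a product of elliptic curves `E_i : Y² = (X - e_i0) (X - e_i1) (X - e_i2)` over `ℂ` (every
elliptic curve over `ℂ` has such an equation).  The motivic cohomology `H^(2 n - 1)_M(X, ℚ(n)) = CH^n(X, 1) ⊗ ℚ` is given
by the finite sums of pairs `(W, f)`, `W ⊂ X` a curve, `f` a rational function on `W`, with `∑ div f = 0` as a zero cycle
on `X`; a nonconstant morphism `C → X` from a smooth projective curve `C` and a rational function on `C` whose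
divisor is mapped to `0` define such a class by push-forward.  The real regulator of the class is the functional
`η ↦ ∫_C log |f| η` on the real harmonic `(1, 1)`-forms `η` on `X`, up to the normalization.  With
`ω_i = dX / Y` on `E_i` it is given by the Hermitian matrix of the integrals `∫_C log |f| ω_i ∧ conj ω_j` (up to the factor
`- 2 √(-1)`).

For these `(i, j) = (2 n - 1, n)` the group `Hg^(2 n - 1, n)(X)` vanishes, and
`J^(2 n - 1, n)(X) = H^(2 n - 2)(X, ℂ) / (H^(2 n - 2)(X, ℚ(n)) + F^n)` has the maximal Hausdorff quotient
`H^(2 n - 2)(X, ℂ) / (H^(2 n - 2)(X, ℝ(n)) + F^n)`, the dual of the space of real `(1, 1)`-forms, a real vector space of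
dimension `n²`, which is identified with the Hermitian matrices.  So the image of the regulator is dense
in absolute Hodge cohomology if and only if the rational span of the matrices is dense in the Hermitian matrices.

The theorem proves this for ALL products of elliptic curves over `ℂ`, in particular for all which are defined over
a number field.  For `n = 2`: the regulator `H³_M(E_1 × E_2, ℚ(2)) → H³_H(E_1 × E_2, ℚ(2))` has dense image for all
pairs of elliptic curves; the real vector space has dimension `4`, and the decomposable elements span only a
subspace of dimension `2` if the curves are not isogenous.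

Definitions used (`Pool/Agent/J4/H67/REG/Defs.lean`): `Place L`, the places of the function field `L` over `ℂ`, with
`Place.value`, `Place.ord` and `Place.point` (the value and the order of a function, the point on `Y² = F(X)`);
`CurveFn e`, a curve with a rational function and with a morphism to the product; `CurveFn.IsCycle`, the divisor of
the function is mapped to `0`; `CurveFn.reg`, the matrix of the integrals.
-/

namespace Pool.Agent.Results.MP_b2b689_ag.ProductsOfEllipticCurves

open Pool.Agent.J4.H67.REG

/-- **Density of the regulator for all products of elliptic curves.**  Let `E_i`, `i ∈ ι`, be finitely many elliptic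
curves `Y² = ∏_k (X - e i k)` over `ℂ`.  The closure of the `ℚ`-span of the matrices
`(∫_C log |f| h_i conj (h_j))_(i, j)` of the curves `C` with a rational function `f` and with a morphism to the product
of the `E_i`, which maps the divisor of `f` to `0`, where `h_i dx` is the pull-back of the form `dX / Y` of `E_i`, is the
set of ALL Hermitian matrices. -/
theorem result {ι : Type} [Fintype ι] (e : ι → Fin 3 → ℂ) (he : ∀ i, Function.Injective (e i)) :
    closure (Submodule.span ℚ {M : Matrix ι ι ℂ | ∃ Z : CurveFn e, Z.IsCycle ∧ Z.reg = M} : Set (Matrix ι ι ℂ)) =
      {A : Matrix ι ι ℂ | A.IsHermitian} :=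
  density he

end Pool.Agent.Results.MP_b2b689_ag.ProductsOfEllipticCurves
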